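import Pool.Agent.WAR.Exports
import Pool.Agent.WAR.Alg

/-!
# Row TWT of squad WAR: the points with 2 T = 0
-/

set_option autoImplicit false

namespace Pool.Agent.WAR.H19

open Classical
open Pool.Agent.WAR Pool.Agent.WAR.G

theorem twt [Par] : TwtStmt := by
  intro F _ _ h2 d hd T hT
  by_cases h0 : T = 0
  · exact Or.inl h0
  obtain ⟨x, y, hxy⟩ := exists_isP hd h0
  have h3 : T = -T := eq_neg_of_add_eq_zero_left hT
  have h4 : yn T = -yn T := by
    conv_lhs => rw [h3]
    exact yn_neg T
  rw [hxy.yn_eq hd] at h4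
  have hy : y = 0 := by
    have h5 : (2 : F) * y = 0 := by linear_combination h4
    exact (mul_eq_zero.1 h5).resolve_left h2
  subst hy
  have h6 := hxy.eqn hd
  have h7 : x * (x - ea F) * (x - eb F) = 0 := by
    have e : cub x = x * (x - ea F) * (x - eb F) := rfl
    rw [← e, ← h6]
    ring
  rcases mul_eq_zero.1 h7 with h8 | h8
  · rcases mul_eq_zero.1 h8 with h9 | h9
    · subst h9
      exact Or.inr (Or.inl (hxy.ext (isP_tor h2 hd cub_zero)))
    · have hx : x = ea F := sub_eq_zero.1 h9
      subst hx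
      exact Or.inr (Or.inr (Or.inl (hxy.ext (isP_tor h2 hd cub_ea))))
  · have hx : x = eb F := sub_eq_zero.1 h8
    subst hx
    exact Or.inr (Or.inr (Or.inr (hxy.ext (isP_tor h2 hd cub_eb))))

end Pool.Agent.WAR.H19
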